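import Pool.Agent.X35.OR.ConsecD
import Pool.Agent.X35.GV.Hyper

/-!
# Class functions of Frobenius at `s` consecutive primes for the members `C_n` of ALL families of hyperelliptic curves are uncorrelated, for ALL integers `n` near
`± α v_i`, outside a set of `α` of small dimension
-/

set_option autoImplicit false

namespace Pool.Agent.Results.MP_3da4c4_nt.ConsecutivePrimes

open Finset Polynomial

/-- The member `F_n(x)` of the family `F ∈ ℤ[T][x]`, modulo `p`. -/
noncomputable def member (F : ℤ[X][X]) (n : ℤ) (p : ℕ) : (ZMod p)[X] :=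
  (F.map (evalRingHom n)).map (Int.castRingHom (ZMod p))

/-- The curve `C : y² = f(x)` (`f` of degree `2 g + 1` or `2 g + 2`) is a smooth curve of genus `g` over `𝔽_p`: `p` is an odd prime, and `f` has
degree `2 g + 1` or `2 g + 2` and no multiple root. -/
def Good (g p : ℕ) (f : (ZMod p)[X]) : Prop :=
  p.Prime ∧ p ≠ 2 ∧ (f.natDegree = 2 * g + 1 ∨ f.natDegree = 2 * g + 2) ∧ f.Separable

open Classical in
/-- The number `#C(𝔽)`, `𝔽` the field with `p ^ k` elements, of the points of the smooth projective curve `C : y² = f(x)` of genus `g`: the affine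
points, and the points at infinity (one for each `y ∈ 𝔽` with `y² = c`, `c` the coefficient of `x ^ (2 g + 2)`). -/
noncomputable def points (g p k : ℕ) (f : (ZMod p)[X]) : ℕ :=
  if h : p.Prime then
    haveI : Fact p.Prime := ⟨h⟩
    Nat.card {P : GaloisField p k × GaloisField p k // P.2 ^ 2 = aeval P.1 f} +
      Nat.card {y : GaloisField p k // y ^ 2 = algebraMap (ZMod p) (GaloisField p k) (f.coeff (2 * g + 2))}
  else 0

/-- The sum of the `k`-th powers of the normalised Frobenius eigenvalues on `H¹`: `(p ^ k + 1 - #C(𝔽)) / p ^ (k / 2)`, where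
`𝔽` is the field with `p ^ k` elements. -/
noncomputable def powerSum (g p : ℕ) (f : (ZMod p)[X]) (k : ℕ) : ℝ :=
  ((p : ℝ) ^ k + 1 - points g p k f) / Real.sqrt p ^ k

open Classical in
/-- The value at Frobenius of the class function `Φ(s_1, ..., s_R)` for the Jacobian of `y² = f(x)` at `p`, `s_k` the power sums of the normalised
eigenvalues, if the curve is smooth of genus `g`, and `0` otherwise. -/
noncomputable def classFunction (g : ℕ) {R : ℕ} (Φ : MvPolynomial (Fin R) ℚ) (p : ℕ) (f : (ZMod p)[X]) : ℝ :=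
  if Good g p f then MvPolynomial.aeval (fun i : Fin R => powerSum g p f (i + 1)) Φ else 0

/-- The average of the class function over the members `F_t` of the family, `t = 0, ..., p - 1`. -/
noncomputable def average (g : ℕ) {R : ℕ} (Φ : MvPolynomial (Fin R) ℚ) (F : ℤ[X][X]) (p : ℕ) : ℝ :=
  (∑ t ∈ range p, classFunction g Φ p (member F t p)) / p

/-- Let `s, B ≥ 1` and `δ > 0`. There are `κ > 0` and `C > 0` such that for all reals `v_i ≥ 1` with `∑ v_i ^ (-u) < ∞` for all `u > τ` (`τ ≥ 0`;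
for example `v_i = 2 ^ i`, `τ = 0`), all `θ < 1` and every strictly increasing sequence `q_0, q_1, ...` of primes with `q_k ≤ (k + 2) ^ B` (`B = 4`
for the sequence of all odd primes) there is a set `E` of reals of Hausdorff dimension at most `(1 - κ + τ) / (1 - θ)` with the
following property. For every real `α > 0` outside `E`, ALL genera `g_j`, ALL families `F_j ∈ ℤ[T][x]`, ALL polynomials `Φ_j` over `ℚ` in the power sums
`s_1, ..., s_R` of the normalised Frobenius eigenvalues (`j < s`), all `i ≥ i₀`, ALL integers `n` with `||n| - α v_i| ≤ v_i ^ θ` and ALL integers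
`K` with `(log |n|) ^ C ≤ K ≤ |n| ^ κ`, the sum over `k < K` of
`∏_{j < s} Φ_j(Frob_{q_{k+j}} | J(C_{j,n})) - ∏_{j < s} (average over J(C_{j,t}), t mod q_{k+j})` is at most `K ^ (1 / 2 + δ)` in absolute value,
`C_{j,n} : y² = F_{j,n}(x)`. -/
theorem result (s B : ℕ) (hs : 1 ≤ s) (hB : 1 ≤ B) (δ : ℝ) (hδ : 0 < δ) :
    ∃ κ C : ℝ, 0 < κ ∧ 0 < C ∧ ∀ (v : ℕ → ℝ) (τ θ : ℝ), (∀ i, 1 ≤ v i) → 0 ≤ τ → θ < 1 →
      (∀ u : ℝ, τ < u → Summable (fun i => v i ^ (-u))) →
      ∀ q : ℕ → ℕ, StrictMono q → (∀ k, (q k).Prime ∧ q k ≤ (k + 2) ^ B) →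
      ∃ E : Set ℝ, dimH E ≤ ENNReal.ofReal ((1 - κ + τ) / (1 - θ)) ∧
        ∀ α : ℝ, 0 < α → α ∉ E → ∀ (g : Fin s → ℕ) (F : Fin s → ℤ[X][X]) (R : ℕ) (Φ : Fin s → MvPolynomial (Fin R) ℚ),
          ∃ i₀ : ℕ, ∀ i : ℕ, i₀ ≤ i → ∀ n : ℤ, |(|(n : ℝ)|) - α * v i| ≤ v i ^ θ →
            ∀ K : ℕ, Real.log |(n : ℝ)| ^ C ≤ K → (K : ℝ) ≤ |(n : ℝ)| ^ κ →
              |∑ k ∈ range K, (∏ j : Fin s, classFunction (g j) (Φ j) (q (k + j)) (member (F j) n (q (k + j))) -
                ∏ j : Fin s, average (g j) (Φ j) (F j) (q (k + j)))| ≤ (K : ℝ) ^ (1 / 2 + δ) := by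
  classical
  obtain ⟨κ, C, hκ, hC, H⟩ := Pool.Agent.X35.OR.consec s B hs hB δ hδ
  refine ⟨κ, C, hκ, hC, fun v τ θ hv1 hτ hθ hv q hmono hq => ?_⟩
  let Γ : Type := (Fin s → ℕ) × (Fin s → ℤ[X][X]) × (Σ R : ℕ, (Fin s → MvPolynomial (Fin R) ℚ))
  have hcount : Countable Γ := by
    have h0 := Pool.Agent.X35.GV.countable_pp
    have h1 := Pool.Agent.X35.GV.countable_mvq
    have h2 : Countable (Σ R : ℕ, (Fin s → MvPolynomial (Fin R) ℚ)) := inferInstance
    infer_instance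
  have hbd : ∀ c : Γ, ∃ D : ℝ, 1 ≤ D ∧ ∀ (j : Fin s) (t : Fin c.2.2.1 → ℝ), (∀ i, |t i| ≤ 2 * (c.1 j : ℝ) + 2) →
      |MvPolynomial.aeval t (c.2.2.2 j)| ≤ D := by
    intro c
    have h1 : ∀ j : Fin s, ∃ D : ℝ, 0 < D ∧ ∀ t : Fin c.2.2.1 → ℝ, (∀ i, |t i| ≤ 2 * (c.1 j : ℝ) + 2) → |MvPolynomial.aeval t (c.2.2.2 j)| ≤ D :=
      fun j => Pool.Agent.X35.GV.poly_bdd (c.2.2.2 j) _
    choose D hD0 hD using h1
    refine ⟨1 + ∑ j, D j, by linarith [sum_nonneg (fun j (_ : j ∈ (univ : Finset (Fin s))) => (hD0 j).le)], fun j t ht => ?_⟩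
    have h2 : D j ≤ ∑ j, D j := single_le_sum (fun j _ => (hD0 j).le) (mem_univ j)
    linarith [hD j t ht]
  choose D hD0 hD using hbd
  obtain ⟨E, hE1, hE2⟩ := H v τ θ hv1 hτ hθ hv Γ (fun _ => q) (fun _ => ⟨hmono, hq⟩)
    (fun c j p n => classFunction (c.1 j) (c.2.2.2 j) p (member (c.2.1 j) n p)) D hD0
    (by
      intro c j k m m' h
      have : member (c.2.1 j) m (q k) = member (c.2.1 j) m' (q k) := Pool.Agent.X35.GV.mem_per (c.2.1 j) (q k) m m' h
      rw [this])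
    (by
      intro c j k n
      unfold classFunction
      split_ifs with hg
      · apply hD c j
        intro i
        exact Pool.Agent.X35.GV.psum_bound (c.1 j) (q k) _ hg (i + 1) (by omega)
      · rw [abs_zero]
        linarith [hD0 c])
  refine ⟨E, hE1, fun α hα hαE g F R Φ => ?_⟩
  obtain ⟨i₁, hi₁⟩ := hE2 α hα hαE ⟨g, F, R, Φ⟩
  refine ⟨i₁, fun i hi n hn K hK1 hK2 => ?_⟩
  have h1 := hi₁ i hi n hn K hK1 hK2
  refine le_trans h1 ?_
  have : 0 ≤ (K : ℝ) ^ (1 / 2 + δ) := by positivity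
  linarith

end Pool.Agent.Results.MP_3da4c4_nt.ConsecutivePrimes
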