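import Pool.Agent.X22.ND1
import Pool.Agent.W529.ST.Hyp

/-!
# The odd moments of the quadratic twists by `D` of hyperelliptic curves: square-root cancellation for almost all `D` which arise from an
arbitrary integer by changing a few digits

Nothing is used besides Mathlib in the statement.
-/

set_option autoImplicit false

namespace Pool.Agent.Results.MP_3da4c4_nt.FewDigitTwists

open Finset Polynomial

/-- The number of the points of the smooth projective curve `d y ^ 2 = h (x)` over the extension of degree `j` of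
the finite field `k` (the field of the elements of the algebraic closure of `k` which are
fixed by the `j`-th power of the Frobenius of `k`): the affine points, and the points at infinity; there
is one if `deg h` is odd, and if `deg h = 2 g + 2` with the leading coefficient `c` they are the solutions
`z` of `d z ^ 2 = c`. -/
noncomputable def pointCount (k : Type) [Field k] (h : k[X]) (d : k) (j : ℕ) : ℕ :=
  Nat.card {P : AlgebraicClosure k × AlgebraicClosure k //
    P.1 ^ (Nat.card k ^ j) = P.1 ∧ P.2 ^ (Nat.card k ^ j) = P.2 ∧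
    algebraMap k (AlgebraicClosure k) d * P.2 ^ 2 = aeval P.1 h} +
  if Odd h.natDegree then 1 else
    Nat.card {z : AlgebraicClosure k // z ^ (Nat.card k ^ j) = z ∧
      algebraMap k (AlgebraicClosure k) d * z ^ 2 = algebraMap k (AlgebraicClosure k) h.leadingCoeff}

/-- The coefficients `c i` of `L(T) = (1 - T) (1 - q T) exp (∑ N j T ^ j / j) = exp (∑ t j T ^ j / j)`, where
`t j = N j - 1 - q ^ j`: `c 0 = 1` and `(i + 1) c (i + 1) = ∑ j ≤ i, t (j + 1) c (i - j)`. -/
noncomputable def coeffL (t : ℕ → ℝ) : ℕ → ℝ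
  | 0 => 1
  | i + 1 => (∑ j : Fin (i + 1), t (j + 1) * coeffL t (i - j)) / (i + 1)

open Classical in
/-- The coefficient `a_k` of the normalised `L`-polynomial `L_p(p ^ (-1 / 2) T)` at `p` of the curve `D y ^ 2 = h (x)`. -/
noncomputable def a (h : ℤ[X]) (D : ℕ) (k p : ℕ) : ℝ :=
  if hp : p.Prime then
    haveI : Fact p.Prime := ⟨hp⟩
    coeffL (fun j => (pointCount (ZMod p) (h.map (Int.castRingHom (ZMod p))) (D : ZMod p) j : ℝ) - 1 - (p : ℝ) ^ j) k /
      Real.sqrt p ^ k
  else 0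

/-- `p` does not divide `2 D`, and the reduction of `h` modulo `p` has the same degree and no multiple roots; then the curve `D y ^ 2 = h (x)`
has good reduction at `p`. -/
def Good (h : ℤ[X]) (D p : ℕ) : Prop :=
  ¬ p ∣ 2 * D ∧ (h.map (Int.castRingHom (ZMod p))).natDegree = h.natDegree ∧ (h.map (Int.castRingHom (ZMod p))).Separable

open Classical in
/-- The sum of the `j`-th powers of the coefficients `a_k` of the curve `D y ^ 2 = h (x)` over the primes `p ∈ P` of good reduction. -/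
noncomputable def powers (h : ℤ[X]) (P : Finset ℕ) (D k j : ℕ) : ℝ :=
  ∑ p ∈ P.filter (fun p => p.Prime ∧ Good h D p), a h D k p ^ j

/-- The digit number `i` (counted from the right, beginning with `0`) of `n` in base `b`. -/
def digit (b i n : ℕ) : ℕ := n / b ^ i % b

/-- The number which arises from the number `N` with at most `K` digits in base `b`, if for every `i ∈ S`
the digit number `i` is replaced by `f i`. -/
def change (b K N : ℕ) (f : ℕ → ℕ) (S : Finset ℕ) : ℕ :=
  ∑ i ∈ range K, (if i ∈ S then f i else digit b i N) * b ^ i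

open Classical in
/-- The number of the choices of `r` of `K` positions for which the number obtained by
changing the digits of `N` at the chosen positions (according to `f`) does not have the property `E`. -/
noncomputable def exceptions (b K r N : ℕ) (f : ℕ → ℕ) (E : ℕ → Prop) : ℕ :=
  ((powersetCard r (range K)).filter (fun S => ¬ E (change b K N f S))).card

lemma coeffL_twist (ε : ℝ) (t s : ℕ → ℝ) (h : ∀ j, j ≠ 0 → s j = ε ^ j * t j) (i : ℕ) :
    coeffL s i = ε ^ i * coeffL t i := by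
  induction i using Nat.strong_induction_on with
  | _ i ih =>
    cases i with
    | zero => rw [coeffL, coeffL, pow_zero, one_mul]
    | succ i =>
      rw [coeffL, coeffL, ← mul_div_assoc, Finset.mul_sum]
      congr 1
      refine Finset.sum_congr rfl fun j _ => ?_
      rw [h _ (Nat.succ_ne_zero _), ih (i - j) (by omega)]
      have h2 : ε ^ (i + 1) = ε ^ ((j : ℕ) + 1) * ε ^ (i - (j : ℕ)) := by
        rw [← pow_add]
        congr 1
        omega
      rw [h2, Nat.succ_eq_add_one]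
      ring

lemma coeffL_bound (n : ℕ) (hn : 1 ≤ n) (w : ℝ) (hw : 0 ≤ w) (t : ℕ → ℝ) (h : ∀ j, j ≠ 0 → |t j| ≤ n * w ^ j) (i : ℕ) :
    |coeffL t i| ≤ (n : ℝ) ^ i * w ^ i := by
  induction i using Nat.strong_induction_on with
  | _ i ih =>
    cases i with
    | zero => rw [coeffL, pow_zero, pow_zero, one_mul, abs_one]
    | succ i =>
      rw [coeffL, abs_div, abs_of_pos (by positivity : (0 : ℝ) < (i : ℝ) + 1), div_le_iff₀ (by positivity)]
      refine (abs_sum_le_sum_abs _ _).trans ?_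
      have hn1 : (1 : ℝ) ≤ n := by exact_mod_cast hn
      have h1 : ∀ j ∈ (univ : Finset (Fin (i + 1))), |t ((j : ℕ) + 1) * coeffL t (i - j)| ≤ (n : ℝ) ^ (i + 1) * w ^ (i + 1) := by
        intro j _
        rw [abs_mul]
        have h2 := h ((j : ℕ) + 1) (Nat.succ_ne_zero _)
        have h3 := ih (i - j) (by omega)
        have h4 : (n : ℝ) ^ (i - (j : ℕ)) ≤ (n : ℝ) ^ i := pow_le_pow_right₀ hn1 (by omega)
        have h5 : w ^ (i + 1) = w ^ ((j : ℕ) + 1) * w ^ (i - (j : ℕ)) := by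
          rw [← pow_add]
          congr 1
          omega
        calc |t ((j : ℕ) + 1)| * |coeffL t (i - j)| ≤ (n * w ^ ((j : ℕ) + 1)) * ((n : ℝ) ^ (i - (j : ℕ)) * w ^ (i - (j : ℕ))) :=
              mul_le_mul h2 h3 (abs_nonneg _) (by positivity)
          _ ≤ (n * w ^ ((j : ℕ) + 1)) * ((n : ℝ) ^ i * w ^ (i - (j : ℕ))) := by gcongr
          _ = (n : ℝ) ^ (i + 1) * w ^ (i + 1) := by rw [h5]; ring
      refine (sum_le_sum h1).trans ?_
      rw [sum_const, card_univ, Fintype.card_fin, nsmul_eq_mul]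
      push_cast
      linarith

lemma pointCount_eq (k : Type) [Field k] (h : k[X]) (d : k) (j : ℕ) :
    (pointCount k h d j : ℝ) - 1 - (Nat.card k : ℝ) ^ j = -(Pool.Agent.W529.ST.trG k h d j : ℝ) := by
  unfold Pool.Agent.W529.ST.trG Pool.Agent.W529.ST.infPts Pool.Agent.H126T.affPts pointCount
  push_cast
  ring

/-- the quadratic character -/
noncomputable def chi (p D : ℕ) : ℝ := if hp : p.Prime then
    haveI : Fact p.Prime := ⟨hp⟩
    (quadraticChar (ZMod p) (D : ZMod p) : ℝ) else 0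

lemma a_twist (h : ℤ[X]) (D k p : ℕ) (hp : p.Prime) (hD : ¬ p ∣ 2 * D) : a h D k p = chi p D ^ k * a h 1 k p := by
  classical
  have hf : Fact p.Prime := ⟨hp⟩
  unfold a chi
  rw [dif_pos hp, dif_pos hp, dif_pos hp, ← mul_div_assoc]
  congr 1
  have h2 : ringChar (ZMod p) ≠ 2 := by
    rw [ZMod.ringChar_zmod_n]
    rintro rfl
    exact hD (Dvd.intro _ rfl)
  have hD0 : (D : ZMod p) ≠ 0 := by
    rw [Ne, ZMod.natCast_eq_zero_iff]
    intro h3
    exact hD (h3.mul_left 2)
  refine coeffL_twist _ _ _ (fun j hj => ?_) k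
  have h1 := Pool.Agent.W529.ST.trG_twist h2 (h.map (Int.castRingHom (ZMod p))) hD0 hj
  have h3 := pointCount_eq (ZMod p) (h.map (Int.castRingHom (ZMod p))) (D : ZMod p) j
  have h4 := pointCount_eq (ZMod p) (h.map (Int.castRingHom (ZMod p))) 1 j
  rw [Nat.card_zmod] at h3 h4
  rw [Nat.cast_one, h3, h4, h1]
  push_cast
  ring

lemma a_bound (h : ℤ[X]) (k p : ℕ) (hp : p.Prime) (hn : 1 ≤ h.natDegree) (hg : Good h 1 p) : |a h 1 k p| ≤ (h.natDegree : ℝ) ^ k := by
  classical
  have hf : Fact p.Prime := ⟨hp⟩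
  unfold a
  rw [dif_pos hp]
  have hp0 : (0 : ℝ) < p := by exact_mod_cast hp.pos
  have hs : 0 < Real.sqrt p := Real.sqrt_pos.2 hp0
  rw [abs_div, abs_of_pos (pow_pos hs k), div_le_iff₀ (pow_pos hs k)]
  refine coeffL_bound h.natDegree hn (Real.sqrt p) hs.le _ (fun j hj => ?_) k
  have h2 : ringChar (ZMod p) ≠ 2 := by
    rw [ZMod.ringChar_zmod_n]
    rintro rfl
    exact hg.1 (Dvd.intro _ rfl)
  have h1 := Pool.Agent.W529.ST.trG_bound h2 (h.map (Int.castRingHom (ZMod p))) (by rw [hg.2.1]; exact hn) hg.2.2 hj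
  have h4 := pointCount_eq (ZMod p) (h.map (Int.castRingHom (ZMod p))) 1 j
  rw [Nat.card_zmod] at h4 h1
  rw [Nat.cast_one, h4, abs_neg]
  rw [hg.2.1] at h1
  refine h1.trans (le_of_eq ?_)
  rw [show (p : ℝ) ^ j = (Real.sqrt p ^ j) ^ 2 by rw [← pow_mul, mul_comm, pow_mul, Real.sq_sqrt hp0.le], Real.sqrt_sq (by positivity)]

lemma chi_abs (p D : ℕ) : |chi p D| ≤ 1 := by
  unfold chi
  by_cases hp : p.Prime
  · rw [dif_pos hp]
    have hf : Fact p.Prime := ⟨hp⟩
    by_cases h0 : (D : ZMod p) = 0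
    · rw [h0, quadraticChar_zero]
      simp
    · rcases quadraticChar_dichotomy h0 with h | h <;> rw [h] <;> simp
  · rw [dif_neg hp]
    simp

lemma chi_mod (p D : ℕ) : chi p D = chi p (D % p) := by
  unfold chi
  by_cases hp : p.Prime
  · rw [dif_pos hp, dif_pos hp, ZMod.natCast_mod]
  · rw [dif_neg hp, dif_neg hp]

lemma chi_zero (p D : ℕ) (h : p ∣ D) : chi p D = 0 := by
  unfold chi
  by_cases hp : p.Prime
  · rw [dif_pos hp]
    have hf : Fact p.Prime := ⟨hp⟩
    rw [(ZMod.natCast_eq_zero_iff D p).2 h, quadraticChar_zero, Int.cast_zero]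
  · rw [dif_neg hp]

lemma chi_cube (p D : ℕ) (k : ℕ) (hk : Odd k) : chi p D ^ k = chi p D := by
  unfold chi
  by_cases hp : p.Prime
  · rw [dif_pos hp]
    have hf : Fact p.Prime := ⟨hp⟩
    by_cases h0 : (D : ZMod p) = 0
    · rw [h0, quadraticChar_zero, Int.cast_zero, zero_pow (by rintro rfl; simp at hk)]
    · rcases quadraticChar_dichotomy h0 with h | h
      · rw [h]
        simp
      · rw [h]
        push_cast
        exact hk.neg_one_pow
  · rw [dif_neg hp, zero_pow (by rintro rfl; simp at hk)]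

lemma sum_chi (p : ℕ) (hp : p.Prime) (h2 : p ≠ 2) : ∑ n ∈ range p, chi p n = 0 := by
  have hf : Fact p.Prime := ⟨hp⟩
  have h1 : ∀ n, chi p n = (quadraticChar (ZMod p) (n : ZMod p) : ℝ) := by
    intro n
    unfold chi
    rw [dif_pos hp]
  rw [sum_congr rfl (fun n _ => h1 n)]
  have h3 : ∑ n ∈ range p, (quadraticChar (ZMod p) (n : ZMod p) : ℝ) = ∑ z : ZMod p, (quadraticChar (ZMod p) z : ℝ) := by
    apply sum_nbij' (fun n : ℕ => (n : ZMod p)) (fun z : ZMod p => z.val)
    · intro n _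
      exact mem_univ _
    · intro z _
      exact mem_range.2 (ZMod.val_lt z)
    · intro n hn
      exact ZMod.val_cast_of_lt (mem_range.1 hn)
    · intro z _
      exact ZMod.natCast_zmod_val z
    · intro n _
      rfl
  rw [h3, ← Int.cast_sum, quadraticChar_sum_zero (by rw [ZMod.ringChar_zmod_n]; exact h2), Int.cast_zero]

lemma good_iff (h : ℤ[X]) (D p : ℕ) (hp : p.Prime) : Good h D p ↔ (Good h 1 p ∧ ¬ p ∣ D) := by
  unfold Good
  rw [hp.dvd_mul, hp.dvd_mul, Nat.dvd_one]
  have := hp.one_lt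
  constructor
  · rintro ⟨h1, h2⟩
    push Not at h1
    refine ⟨⟨?_, h2⟩, h1.2⟩
    push Not
    exact ⟨h1.1, by omega⟩
  · rintro ⟨⟨h1, h2⟩, h3⟩
    push Not at h1
    refine ⟨?_, h2⟩
    push Not
    exact ⟨h1.1, h3⟩

open Classical in
/-- the sum as a character sum -/
lemma powers_eq (h : ℤ[X]) (P : Finset ℕ) (D k j : ℕ) (hk : Odd k) (hj : Odd j) :
    powers h P D k j = ∑ p ∈ P.filter (fun p => p.Prime ∧ Good h 1 p), chi p D * a h 1 k p ^ j := by
  unfold powers
  have h1 : P.filter (fun p => p.Prime ∧ Good h D p) = (P.filter (fun p => p.Prime ∧ Good h 1 p)).filter (fun p => ¬ p ∣ D) := by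
    rw [filter_filter]
    apply filter_congr
    intro p _
    constructor
    · rintro ⟨h1, h2⟩
      rw [good_iff h D p h1] at h2
      exact ⟨⟨h1, h2.1⟩, h2.2⟩
    · rintro ⟨⟨h1, h2⟩, h3⟩
      exact ⟨h1, (good_iff h D p h1).2 ⟨h2, h3⟩⟩
  rw [h1, sum_filter]
  apply sum_congr rfl
  intro p hp
  rw [mem_filter] at hp
  by_cases hpD : p ∣ D
  · rw [if_neg (not_not.2 hpD), chi_zero p D hpD, zero_mul]
  · rw [if_pos hpD, a_twist h D k p hp.2.1 ((good_iff h D p hp.2.1).2 ⟨hp.2.2, hpD⟩).1, mul_pow, ← pow_mul,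
      chi_cube p D (k * j) (hk.mul hj)]

open Classical in
lemma powers_one (h : ℤ[X]) (P : Finset ℕ) (k j : ℕ) :
    powers h P 1 k (2 * j) = ∑ p ∈ P.filter (fun p => p.Prime ∧ Good h 1 p), (a h 1 k p ^ j) ^ 2 := by
  classical
  unfold powers
  apply sum_congr
  · apply filter_congr
    intro p _
    rfl
  · intro p _
    rw [← pow_mul, mul_comm]

/-- Let a base `b ≥ 2`, `δ > 0` and an integer `A ≥ 0` be given. There are `c > 0` and `y₀` such that for all integers
`r`, `K`, `y` with `2 r ≤ K` and `y ≥ y₀` the following holds.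

Let `0 ≤ N < b ^ K` be an arbitrary integer, prescribe for every position `i` a digit `f i` different from the digit of
`N` in base `b`, and let `H x` be for every `x` a set of at most `x ^ A` pairs `(h, P)`, where `h` is a nonconstant polynomial with integer coefficients and
`P` a set of integers up to `x` (for instance those in an arithmetic progression). If one chooses `r` of the `K`
positions and replaces the digits of `N` at these positions, then for all but at most a proportion `1 / y ^ A` of the choices the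
number `D` obtained has the following property: for all integers `x` with `y ≤ x ≤ exp (c r)`, all `(h, P) ∈ H x` and all odd
`k, j ≤ x ^ A` the sum of the `j`-th powers of the coefficients `a_k` of the normalised `L`-polynomials of the curve
`D y ^ 2 = h (x)` over the primes `p ∈ P` of good reduction is at most the square root of the sum of the powers with the exponent `2 j` for
the curve `y ^ 2 = h (x)`, up to the factor `x ^ δ`, and in particular at most `(deg h) ^ (k j) x ^ (1 / 2 + δ)`. -/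
theorem result (b : ℕ) (hb : 2 ≤ b) (δ : ℝ) (hδ : 0 < δ) (A : ℕ) : ∃ c : ℝ, 0 < c ∧ ∃ y₀ : ℕ,
    ∀ K r y : ℕ, 2 * r ≤ K → y₀ ≤ y → ∀ N : ℕ, N < b ^ K → ∀ f : ℕ → ℕ, (∀ i, f i < b ∧ f i ≠ digit b i N) →
    ∀ H : ℕ → Finset (ℤ[X] × Finset ℕ), (∀ x, (H x).card ≤ x ^ A) → (∀ x, ∀ hP ∈ H x, 1 ≤ hP.1.natDegree ∧ ∀ p ∈ hP.2, p ≤ x) →
      (exceptions b K r N f (fun D => ∀ x : ℕ, y ≤ x → (x : ℝ) ≤ Real.exp (c * r) → ∀ hP ∈ H x, ∀ k j : ℕ, Odd k → Odd j →
        k ≤ x ^ A → j ≤ x ^ A →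
        |powers hP.1 hP.2 D k j| ≤ Real.sqrt (powers hP.1 hP.2 1 k (2 * j)) * (x : ℝ) ^ δ ∧
        |powers hP.1 hP.2 D k j| ≤ (hP.1.natDegree : ℝ) ^ (k * j) * (x : ℝ) ^ (1 / 2 + δ)) : ℝ) ≤
        1 / (y : ℝ) ^ A * (K.choose r : ℝ) := by
  classical
  obtain ⟨c, hc, x₀, h⟩ := Pool.Agent.X22.ND.law3_one b hb δ A (3 * A + 2 : ℕ) hδ
  refine ⟨c, hc, x₀ + 3, fun K r y hrK hy N hN f hf H hH1 hH2 => ?_⟩
  have hy0 : (0 : ℝ) < y := by exact_mod_cast (by omega : 0 < y)
  have h1 : 1 / (y : ℝ) ^ A = (y : ℝ) ^ (-(A : ℝ)) := by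
    rw [Real.rpow_neg hy0.le, Real.rpow_natCast, one_div]
  rw [h1]
  unfold exceptions
  obtain ⟨I, hI⟩ : ∃ I : (ℤ[X] × Finset ℕ) → Finset ℕ, I = fun hP => hP.2.filter (fun p => p.Prime ∧ Good hP.1 1 p) := ⟨_, rfl⟩
  obtain ⟨M, hM⟩ : ∃ M : (ℤ[X] × Finset ℕ) × ℕ × ℕ → ℝ, M = fun l => Real.sqrt (powers l.1.1 l.1.2 1 l.2.1 (2 * l.2.2)) := ⟨_, rfl⟩
  obtain ⟨G, hG⟩ : ∃ G : (ℤ[X] × Finset ℕ) × ℕ × ℕ → ℕ → ℕ → ℝ, G = fun l p n => chi p n * (a l.1.1 1 l.2.1 p ^ l.2.2 / M l) := ⟨_, rfl⟩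
  have hIm : ∀ hP p, p ∈ I hP ↔ p ∈ hP.2 ∧ p.Prime ∧ Good hP.1 1 p := by
    intro hP p
    rw [hI]
    exact mem_filter
  have hMsq : ∀ l, M l ^ 2 = ∑ p ∈ I l.1, (a l.1.1 1 l.2.1 p ^ l.2.2) ^ 2 := by
    intro l
    rw [hM, hI]
    show Real.sqrt (powers l.1.1 l.1.2 1 l.2.1 (2 * l.2.2)) ^ 2 = _
    rw [powers_one, Real.sq_sqrt (sum_nonneg fun p _ => sq_nonneg _)]
  have hM0 : ∀ l, 0 ≤ M l := fun l => by rw [hM]; exact Real.sqrt_nonneg _
  have hwM : ∀ l, ∀ p ∈ I l.1, |a l.1.1 1 l.2.1 p ^ l.2.2| ≤ M l := by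
    intro l p hp
    apply abs_le_of_sq_le_sq _ (hM0 l)
    rw [hMsq]
    exact single_le_sum (f := fun p => (a l.1.1 1 l.2.1 p ^ l.2.2) ^ 2) (fun p _ => sq_nonneg _) hp
  have hwM1 : ∀ l, ∀ p ∈ I l.1, |a l.1.1 1 l.2.1 p ^ l.2.2 / M l| ≤ 1 := by
    intro l p hp
    rw [abs_div, abs_of_nonneg (hM0 l)]
    exact div_le_one_of_le₀ (hwM l p hp) (hM0 l)
  refine h r K y hrK (by omega) N hN f hf ((ℤ[X] × Finset ℕ) × ℕ × ℕ)
    (fun x => if x < 2 then ∅ else (H x) ×ˢ ((range (x ^ A + 1)) ×ˢ (range (x ^ A + 1)))) ?_ ℕ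
    (fun _ l => I l.1) (fun _ p => p) ?_ ?_ G ?_ ?_ _ (filter_subset _ _) ?_
  · intro x _
    show (((if x < 2 then ∅ else (H x) ×ˢ ((range (x ^ A + 1)) ×ˢ (range (x ^ A + 1)))) : Finset ((ℤ[X] × Finset ℕ) × ℕ × ℕ)).card : ℝ) ≤ _
    split_ifs with hx
    · rw [card_empty, Nat.cast_zero]
      positivity
    · push Not at hx
      rw [card_product, card_product, card_range, Real.rpow_natCast]
      have e3 : 1 ≤ x ^ A := Nat.one_le_pow _ _ (by omega)
      have e1 : x ^ A + 1 ≤ x ^ (A + 1) := by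
        rw [pow_succ]
        nlinarith
      have e4 : (H x).card * ((x ^ A + 1) * (x ^ A + 1)) ≤ x ^ A * (x ^ (A + 1) * x ^ (A + 1)) :=
        Nat.mul_le_mul (hH1 x) (Nat.mul_le_mul e1 e1)
      have e5 : x ^ A * (x ^ (A + 1) * x ^ (A + 1)) = x ^ (3 * A + 2) := by ring
      rw [e5] at e4
      exact_mod_cast e4
  · intro x l hl p hp
    rw [hIm] at hp
    have hl2 : l.1 ∈ H x := by
      by_cases hx : x < 2
      · have : l ∈ (∅ : Finset ((ℤ[X] × Finset ℕ) × ℕ × ℕ)) := by rwa [if_pos hx] at hl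
        simp at this
      · rw [if_neg hx, mem_product] at hl
        exact hl.1
    exact ⟨hp.2.1.one_lt.le, (hH2 x l.1 hl2).2 p hp.1⟩
  · intro x l _ p hp p' hp' hne
    rw [hIm] at hp hp'
    exact (Nat.coprime_primes hp.2.1 hp'.2.1).2 hne
  · intro x l _ p hp n
    rw [hG]
    show chi p n * _ = chi p (n % p) * _
    rw [← chi_mod]
  · intro x l _ p hp n
    rw [hG]
    show |chi p n * (a l.1.1 1 l.2.1 p ^ l.2.2 / M l)| ≤ 1
    rw [abs_mul]
    have g1 := chi_abs p n
    have g2 := hwM1 l p hp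
    calc |chi p n| * |a l.1.1 1 l.2.1 p ^ l.2.2 / M l| ≤ 1 * 1 := mul_le_mul g1 g2 (abs_nonneg _) zero_le_one
      _ = 1 := one_mul 1
  · intro S hS
    rw [mem_filter] at hS
    obtain ⟨hS1, hS2⟩ := hS
    push Not at hS2
    obtain ⟨x, hyx, hxr, hP, hhP, k, j, hk, hj, hkx, hjx, hbad⟩ := hS2
    have hx0 : (0 : ℝ) < x := by exact_mod_cast (by omega : 0 < x)
    have hx1 : (1 : ℝ) ≤ x := by exact_mod_cast (by omega : 1 ≤ x)
    obtain ⟨l, hl⟩ : ∃ l : (ℤ[X] × Finset ℕ) × ℕ × ℕ, l = (hP, k, j) := ⟨_, rfl⟩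
    have hmeanG : ∀ p ∈ I l.1, Pool.Agent.X22.ND.mean1 p (G l p) = 0 := by
      intro p hp
      rw [hIm] at hp
      unfold Pool.Agent.X22.ND.mean1
      rw [hG]
      show (∑ n ∈ range p, chi p n * (a l.1.1 1 l.2.1 p ^ l.2.2 / M l)) / p = 0
      rw [← sum_mul, sum_chi p hp.2.1 (fun h2 => hp.2.2.1 (by rw [h2])), zero_mul, zero_div]
    have hV : ∑ p ∈ I l.1, Pool.Agent.X22.ND.mean1 p (fun n => G l p n ^ 2) ≤ 1 := by
      have h2 : ∀ p ∈ I l.1, Pool.Agent.X22.ND.mean1 p (fun n => G l p n ^ 2) ≤ (a l.1.1 1 l.2.1 p ^ l.2.2) ^ 2 / M l ^ 2 := by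
        intro p hp
        rw [hIm] at hp
        have hp0 : (0 : ℝ) < p := by exact_mod_cast hp.2.1.pos
        unfold Pool.Agent.X22.ND.mean1
        rw [div_le_iff₀ hp0]
        refine (sum_le_sum (g := fun _ => (a l.1.1 1 l.2.1 p ^ l.2.2) ^ 2 / M l ^ 2) (fun n _ => ?_)).trans ?_
        · rw [hG]
          show (chi p n * (a l.1.1 1 l.2.1 p ^ l.2.2 / M l)) ^ 2 ≤ _
          rw [mul_pow, div_pow]
          have g1 : chi p n ^ 2 ≤ 1 := by
            rw [sq_le_one_iff_abs_le_one]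
            exact chi_abs p n
          exact mul_le_of_le_one_left (by positivity) g1
        · rw [sum_const, card_range, nsmul_eq_mul, mul_comm]
      refine (sum_le_sum h2).trans ?_
      rw [← sum_div, ← hMsq l]
      exact div_self_le_one _
    refine ⟨x, hyx, (Real.log_le_iff_le_exp hx0).2 hxr, l, ?_, ?_⟩
    · show l ∈ (if x < 2 then ∅ else (H x) ×ˢ ((range (x ^ A + 1)) ×ˢ (range (x ^ A + 1))))
      rw [if_neg (by omega), hl, mem_product, mem_product, mem_range, mem_range]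
      exact ⟨hhP, by show k < x ^ A + 1; omega, by show j < x ^ A + 1; omega⟩
    · show Real.sqrt (max 1 (∑ p ∈ I l.1, Pool.Agent.X22.ND.mean1 p (fun n => G l p n ^ 2))) * (x : ℝ) ^ δ <
        |∑ p ∈ I l.1, G l p (Pool.Agent.TH894.SM.change b K N f S) - ∑ p ∈ I l.1, Pool.Agent.X22.ND.mean1 p (G l p)|
      rw [sum_eq_zero hmeanG, sub_zero, max_eq_left hV, Real.sqrt_one, one_mul]
      obtain ⟨D, hD⟩ : ∃ D, D = change b K N f S := ⟨_, rfl⟩
      have hDD : Pool.Agent.TH894.SM.change b K N f S = D := by rw [hD]; rfl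
      rw [hDD]
      rw [← hD] at hbad
      have hpow : powers hP.1 hP.2 D k j = M l * ∑ p ∈ I l.1, G l p D := by
        rw [powers_eq hP.1 hP.2 D k j hk hj, mul_sum]
        have e1 : hP.2.filter (fun p => p.Prime ∧ Good hP.1 1 p) = I l.1 := by rw [hl, hI]
        rw [e1]
        apply sum_congr rfl
        intro p hp
        rw [hG]
        show chi p D * a hP.1 1 k p ^ j = M l * (chi p D * (a l.1.1 1 l.2.1 p ^ l.2.2 / M l))
        have e2 : a l.1.1 1 l.2.1 p ^ l.2.2 = a hP.1 1 k p ^ j := by rw [hl]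
        rw [e2]
        by_cases hM00 : M l = 0
        · have := hwM l p hp
          rw [hM00, e2] at this
          have h0 : a hP.1 1 k p ^ j = 0 := abs_nonpos_iff.1 this
          rw [h0, hM00]
          simp
        · field_simp
      have hMl : M l = Real.sqrt (powers hP.1 hP.2 1 k (2 * j)) := by rw [hM, hl]
      -- the first inequality fails
      have hfirst : Real.sqrt (powers hP.1 hP.2 1 k (2 * j)) * (x : ℝ) ^ δ < |powers hP.1 hP.2 D k j| := by
        by_contra hcon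
        push Not at hcon
        refine absurd (hbad hcon) (not_lt.2 (hcon.trans ?_))
        have hB : Real.sqrt (powers hP.1 hP.2 1 k (2 * j)) ≤ (hP.1.natDegree : ℝ) ^ (k * j) * (x : ℝ) ^ (1 / 2 : ℝ) := by
          rw [← Real.sqrt_eq_rpow]
          have hn : (0 : ℝ) ≤ (hP.1.natDegree : ℝ) ^ (k * j) := by positivity
          rw [Real.sqrt_le_left (by positivity), mul_pow, Real.sq_sqrt hx0.le, powers_one]
          have hb1 : ∀ p ∈ hP.2.filter (fun p => p.Prime ∧ Good hP.1 1 p), (a hP.1 1 k p ^ j) ^ 2 ≤ ((hP.1.natDegree : ℝ) ^ (k * j)) ^ 2 := by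
            intro p hp
            rw [mem_filter] at hp
            have hb2 := a_bound hP.1 k p hp.2.1 (hH2 x hP hhP).1 hp.2.2
            apply sq_le_sq'
            · have : |a hP.1 1 k p ^ j| ≤ (hP.1.natDegree : ℝ) ^ (k * j) := by
                rw [abs_pow, pow_mul]
                exact pow_le_pow_left₀ (abs_nonneg _) hb2 j
              exact (abs_le.1 this).1
            · have : |a hP.1 1 k p ^ j| ≤ (hP.1.natDegree : ℝ) ^ (k * j) := by
                rw [abs_pow, pow_mul]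
                exact pow_le_pow_left₀ (abs_nonneg _) hb2 j
              exact (abs_le.1 this).2
          refine (sum_le_sum hb1).trans ?_
          rw [sum_const, nsmul_eq_mul, mul_comm]
          apply mul_le_mul_of_nonneg_left _ (sq_nonneg _)
          have hc1 : (hP.2.filter (fun p => p.Prime ∧ Good hP.1 1 p)).card ≤ (Icc 1 x).card := by
            apply card_le_card
            intro p hp
            rw [mem_filter] at hp
            rw [mem_Icc]
            exact ⟨hp.2.1.one_lt.le, (hH2 x hP hhP).2 p hp.1⟩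
          rw [Nat.card_Icc, Nat.add_sub_cancel] at hc1
          exact_mod_cast hc1
        calc Real.sqrt (powers hP.1 hP.2 1 k (2 * j)) * (x : ℝ) ^ δ
            ≤ ((hP.1.natDegree : ℝ) ^ (k * j) * (x : ℝ) ^ (1 / 2 : ℝ)) * (x : ℝ) ^ δ := mul_le_mul_of_nonneg_right hB (by positivity)
          _ = (hP.1.natDegree : ℝ) ^ (k * j) * (x : ℝ) ^ (1 / 2 + δ) := by rw [mul_assoc, ← Real.rpow_add hx0]
      rw [← hMl, hpow, abs_mul, abs_of_nonneg (hM0 l)] at hfirst
      by_contra hcon
      push Not at hcon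
      exact absurd hfirst (not_lt.2 (mul_le_mul_of_nonneg_left hcon (hM0 l)))

end Pool.Agent.Results.MP_3da4c4_nt.FewDigitTwists
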