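import Pool.Agent.X280.UC.Final

/-!
# Gaussian fluctuations in the Sato–Tate conjecture for the family of all hyperelliptic curves

We consider all curves `y² = f(x)`, `f = x^(2g+1) + c_{2g} x^(2g) + ... + c_0` with integral coefficients of
absolute value at most `H`, and the coefficients `a_{1,p}` of their normalised `L`-polynomials.  The
conjecture says that the mean value of `(a_{1,p})^m` over the primes tends to the moment `c_1(m; g)` of the
group `USp(2g)`.  For `m ≤ g` we determine the size and the distribution of the error in the family: the sum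
of `(a_{1,p})^m - c_1(m; g)` over the primes of any finite set `P`, divided by its standard deviation
`√(v |P|)`, `v = c_1(2m; g) - c_1(m; g)²`, has the standard normal law in the limit, as it would be for
independent Haar distributed matrices.  Arbitrary weights are allowed, and everything is uniform in the
set of primes and in the weights, as long as `H ≥ y^K`, where `y` is the largest prime and `K → ∞`.  (For
`m ≤ 2g + 1` the moments `c_1(m; g)` of `USp(2g)` are those of the normal law, `gaussMoment m`.)

The second part says the same for all bounded functions of the reduction of `f` modulo `p`, for instance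
functions of the whole normalised `L`-polynomial `(a_{1,p}, ..., a_{g,p})`, such as the indicator function of
a box, with the mean values and variances taken over the reductions.

`numPoints c p` is the number of the affine points modulo `p`, `a1 c p = (numPoints c p - p) / √p`.
`gaussMoment m` is `(m - 1)‼` for even `m` and `0` for odd `m`.  `mean p φ` is the mean value of `φ` over the
residue vectors modulo `p` and `variance p φ` the mean value of `(φ - mean p φ)²`.
-/

set_option autoImplicit false

namespace Pool.Agent.Results.MP_3da4c4_nt.GaussianFluctuations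

open Pool.Agent.X280.UC ProbabilityTheory

/-- (1) For `1 ≤ m ≤ g`, `δ > 0`, real `u` and `ε > 0` there is a `K` such that for all finite sets `P` of
at least `K` odd primes `p ≤ y`, all weights `w(p) ∈ [-1, 1]` with `∑ w(p)² ≥ δ |P|` and all `H ≥ y^K`: the
proportion, among the integral vectors `c` with `|c_i| ≤ H`, of those with
`∑_{p ∈ P} w(p) (a_{1,p}(c)^m - gaussMoment m) ≤ u √(v ∑ w(p)²)`, `v = gaussMoment (2m) - (gaussMoment m)²`,
differs by at most `ε` from the probability that a standard normal variable is at most `u`.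

(2) For `n`, `δ > 0`, real `u` and `ε > 0` there is a `K` such that for all finite sets `P` of at least `K`
primes `p ≤ y`, all functions `φ_p` on the residue vectors modulo `p` with values in `[-1, 1]`, the sum `V`
of whose variances is at least `δ |P|`, and all `H ≥ y^K`: the proportion, among the integral vectors `c` with
`|c_i| ≤ H`, `i < n`, of those for which the sum over `p ∈ P` of `φ_p(c mod p)` minus the mean value of `φ_p`
is at most `u √V` differs by at most `ε` from the probability that a standard normal variable is at most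
`u`. -/
theorem result :
    (∀ g m : ℕ, 1 ≤ m → m ≤ g → ∀ δ : ℝ, 0 < δ → ∀ u ε : ℝ, 0 < ε →
      ∃ K : ℕ, ∀ (P : Finset ℕ) (w : ℕ → ℝ) (y H : ℕ), (∀ p ∈ P, p.Prime ∧ p ≠ 2 ∧ p ≤ y) →
        (∀ p ∈ P, |w p| ≤ 1) → δ * P.card ≤ ∑ p ∈ P, w p ^ 2 → K ≤ P.card → y ^ K ≤ H →
        |({c : Fin (2 * g + 1) → ℤ | (∀ i, |c i| ≤ H) ∧
          ∑ p ∈ P, w p * (a1 c p ^ m - gaussMoment m) ≤
            u * √((gaussMoment (2 * m) - gaussMoment m ^ 2) * ∑ p ∈ P, w p ^ 2)}.ncard : ℝ) /
          (2 * H + 1 : ℝ) ^ (2 * g + 1) - (gaussianReal 0 1).real (Set.Iic u)| ≤ ε) ∧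
    (∀ (n : ℕ) (δ : ℝ), 0 < δ → ∀ u ε : ℝ, 0 < ε →
      ∃ K : ℕ, ∀ (P : Finset ℕ) (φ : ∀ p : ℕ, (Fin n → ZMod p) → ℝ) (y H : ℕ),
        (∀ p ∈ P, p.Prime ∧ p ≤ y) → (∀ p ∈ P, ∀ r, |φ p r| ≤ 1) →
        δ * P.card ≤ ∑ p ∈ P, variance p (φ p) → K ≤ P.card → y ^ K ≤ H →
        |({c : Fin n → ℤ | (∀ i, |c i| ≤ H) ∧
          ∑ p ∈ P, (φ p (fun i => (c i : ZMod p)) - mean p (φ p)) ≤
            u * √(∑ p ∈ P, variance p (φ p))}.ncard : ℝ) /
          (2 * H + 1 : ℝ) ^ n - (gaussianReal 0 1).real (Set.Iic u)| ≤ ε) :=
  ⟨fun g m hm hmg δ hδ u ε hε => law_moments g m hm hmg δ hδ u ε hε,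
    fun n δ hδ u ε hε => law_all n δ hδ u ε hε⟩

end Pool.Agent.Results.MP_3da4c4_nt.GaussianFluctuations
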