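import Pool.Agent.X35.GM.Vec

/-!
# The normalised `L`-polynomials at `s` consecutive primes, for almost all members of every one-parameter family of
hyperelliptic curves of genus `g`: all boxes, with square-root error against the finite-field model
-/

set_option autoImplicit false

namespace Pool.Agent.Results.MP_3da4c4_nt.HyperellipticFamilies

open Finset Polynomial

/-- The member `F_n(x)` of the family `F ∈ ℤ[T][x]`, modulo `p`. -/
noncomputable def member (F : ℤ[X][X]) (n p : ℕ) : (ZMod p)[X] :=
  (F.map (evalRingHom (n : ℤ))).map (Int.castRingHom (ZMod p))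

/-- The curve `C : y² = f(x)` (`f` of degree `2 g + 1` or `2 g + 2`) is a smooth curve of genus `g` over `𝔽_p`: `p` is an odd prime, and `f` has
degree `2 g + 1` or `2 g + 2` and no multiple root. -/
def Good (g p : ℕ) (f : (ZMod p)[X]) : Prop :=
  p.Prime ∧ p ≠ 2 ∧ (f.natDegree = 2 * g + 1 ∨ f.natDegree = 2 * g + 2) ∧ f.Separable

open Classical in
/-- The number `#C(𝔽)`, `𝔽` the field with `p ^ k` elements, of the points of the smooth projective curve `C : y² = f(x)` of genus `g`: the affine
points, and the points at infinity (one for each `y ∈ 𝔽` with `y² = c`, `c` the coefficient of `x ^ (2 g + 2)`). -/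
noncomputable def points (g p k : ℕ) (f : (ZMod p)[X]) : ℕ :=
  if h : p.Prime then
    haveI : Fact p.Prime := ⟨h⟩
    Nat.card {P : GaloisField p k × GaloisField p k // P.2 ^ 2 = aeval P.1 f} +
      Nat.card {y : GaloisField p k // y ^ 2 = algebraMap (ZMod p) (GaloisField p k) (f.coeff (2 * g + 2))}
  else 0

/-- The sum of the `k`-th powers of the normalised Frobenius eigenvalues: `(p ^ k + 1 - #C(𝔽)) / p ^ (k / 2)`, where
`𝔽` is the field with `p ^ k` elements. -/
noncomputable def powerSum (g p : ℕ) (f : (ZMod p)[X]) (k : ℕ) : ℝ :=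
  ((p : ℝ) ^ k + 1 - points g p k f) / Real.sqrt p ^ k

/-- The coefficients `a 0, a 1, ...` of `∏ (1 - α T)`, if `s k` is the sum of the `α ^ k` (Newton's identities
`k a k = - (s 1 a (k - 1) + ... + s k a 0)`). -/
noncomputable def newton (s : ℕ → ℝ) : ℕ → ℝ
  | 0 => 1
  | k + 1 => -(1 / ((k : ℝ) + 1)) * ∑ i : Fin (k + 1), s (i + 1) * newton s (k - i)

/-- The coefficient `a_{i,p}` of `T ^ i` (and of `T ^ (2 g - i)`) in the normalised `L`-polynomial of the curve at `p`, for `i ≤ g`. -/
noncomputable def lcoeff (g p : ℕ) (f : (ZMod p)[X]) (i : ℕ) : ℝ := newton (powerSum g p f) i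

/-- The curve is good at `p`, and the coefficients `a_{1,p}, ..., a_{g,p}` are in the sets `J 0, ..., J (g - 1)`. -/
def InBox {g : ℕ} (p : ℕ) (f : (ZMod p)[X]) (J : Fin g → Set ℝ) : Prop :=
  Good g p f ∧ ∀ j : Fin g, lcoeff g p f (j + 1) ∈ J j

open Classical in
/-- The number of the `k < K` such that for all `i < s` the curve `y² = F_n(x)` has the property `InBox` with the box `I i` at the prime
with the number `k + i` (the primes are numbered from `0`). -/
noncomputable def boxCount {s g : ℕ} (F : ℤ[X][X]) (n : ℕ) (I : Fin s → Fin g → Set ℝ) (K : ℕ) : ℕ :=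
  ((range K).filter (fun k => ∀ i : Fin s, InBox (Nat.nth Nat.Prime (k + i)) (member F n (Nat.nth Nat.Prime (k + i))) (I i))).card

open Classical in
/-- The proportion of the residues `t` modulo `p` such that `y² = F_t(x)` has the property `InBox` at `p`. -/
noncomputable def proportion {g : ℕ} (F : ℤ[X][X]) (p : ℕ) (J : Fin g → Set ℝ) : ℝ :=
  ((range p).filter (fun t : ℕ => InBox p (member F t p) J)).card / p

/-- The expected number: the sum over `k < K` of the product of the proportions at the `s` primes. -/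
noncomputable def boxModel {s g : ℕ} (F : ℤ[X][X]) (I : Fin s → Fin g → Set ℝ) (K : ℕ) : ℝ :=
  ∑ k ∈ range K, ∏ i : Fin s, proportion F (Nat.nth Nat.Prime (k + i)) (I i)

theorem member_per (F : ℤ[X][X]) (n p : ℕ) : member F (n + p) p = member F n p := by
  unfold member
  ext i
  rw [coeff_map, coeff_map, coeff_map, coeff_map, coe_evalRingHom, coe_evalRingHom, eq_intCast, eq_intCast, ← sub_eq_zero,
    ← Int.cast_sub]
  apply (ZMod.intCast_zmod_eq_zero_iff_dvd _ p).2
  have e : ((n + p : ℕ) : ℤ) - (n : ℤ) = p := by push_cast; ring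
  have := (F.coeff i).sub_dvd_eval_sub ((n + p : ℕ) : ℤ) (n : ℤ)
  rwa [e] at this

open Classical in
/-- the statistic as a vector: the indicator of goodness and the coefficients -/
noncomputable def st (F : ℤ[X][X]) (g p n : ℕ) : Fin (g + 1) → ℝ :=
  Fin.cons (if Good g p (member F n p) then 1 else 0) (fun j : Fin g => lcoeff g p (member F n p) (j + 1))

theorem st_per (F : ℤ[X][X]) (g p n : ℕ) : st F g p (n + p) = st F g p n := by
  unfold st
  rw [member_per]

theorem st_iff (F : ℤ[X][X]) (g p n : ℕ) (J : Fin g → Set ℝ) :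
    (∀ j, st F g p n j ∈ (Fin.cons {1} J : Fin (g + 1) → Set ℝ) j) ↔ InBox p (member F n p) J := by
  unfold InBox
  rw [Fin.forall_fin_succ]
  unfold st
  simp only [Fin.cons_zero, Fin.cons_succ, Set.mem_singleton_iff]
  by_cases h : Good g p (member F n p)
  · simp [h]
  · simp [h]

/-- Let `s ≥ 1`, `g` and `δ > 0` be given. There are `κ > 0` and `C`, depending on `s`, `g` and `δ` only, such that for all polynomials
`F ∈ ℤ[T][x]` and all `N ≥ 1` there is a set `E` of at most `C N ^ (1 - κ)` integers with the following property. For every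
`0 ≤ n ≤ N` outside `E`, every `K ≤ N ^ κ` and all products `I 0, ..., I (s - 1)` of `g` intervals, the number of the `k < K` such that
for all `i < s` the curve `y² = F_n(x)` is a smooth curve of genus `g` modulo the prime with the number `k + i` and the
coefficients `(a_{1,p}, ..., a_{g,p})` of its normalised `L`-polynomial there are in `I i` differs from the expected number by at most
`C K ^ (1 / 2 + δ) (1 + log N) ^ (1 / 2)`. -/
theorem result (s g : ℕ) (hs : 1 ≤ s) (δ : ℝ) (hδ : 0 < δ) :
    ∃ κ C : ℝ, 0 < κ ∧ 0 < C ∧ ∀ (F : ℤ[X][X]) (N : ℕ), 1 ≤ N →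
      ∃ E : Finset ℕ, (E.card : ℝ) ≤ C * (N : ℝ) ^ (1 - κ) ∧
        ∀ n : ℕ, n ≤ N → n ∉ E → ∀ K : ℕ, (K : ℝ) ≤ (N : ℝ) ^ κ →
          ∀ I : Fin s → Fin g → Set ℝ, (∀ i j, (I i j).OrdConnected) →
            |(boxCount F n I K : ℝ) - boxModel F I K| ≤ C * ((K : ℝ) ^ (1 / 2 + δ) * √(1 + Real.log N)) := by
  classical
  obtain ⟨κ, C, h1, _, h3, H⟩ := Pool.Agent.X35.GM.vecA s (g + 1) hs δ hδ
  refine ⟨κ, C, h1, by linarith, fun F N hN => ?_⟩
  obtain ⟨E, hE1, hE2⟩ := H (st F g) (st_per F g) N hN
  refine ⟨E, hE1, fun n hn hnE K hK I hI => ?_⟩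
  have h := hE2 n hn hnE K hK (fun i => Fin.cons {1} (I i)) (by
    intro i
    rw [Fin.forall_fin_succ]
    exact ⟨Set.ordConnected_singleton, fun j => hI i j⟩)
  have e1 : Pool.Agent.X35.GM.cnt (fun p => st F g p n) (fun i => (Fin.cons {1} (I i) : Fin (g + 1) → Set ℝ)) K = boxCount F n I K := by
    unfold Pool.Agent.X35.GM.cnt boxCount
    congr 1
    apply filter_congr
    intro k _
    exact forall_congr' fun i => st_iff F g _ n (I i)
  have e2 : Pool.Agent.X35.GM.mdl (st F g) (fun i => (Fin.cons {1} (I i) : Fin (g + 1) → Set ℝ)) K = boxModel F I K := by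
    unfold Pool.Agent.X35.GM.mdl boxModel proportion Pool.Agent.X35.GM.prp
    refine sum_congr rfl fun k _ => prod_congr rfl fun i _ => ?_
    congr 3
    apply filter_congr
    intro t _
    exact st_iff F g _ t (I i)
  rw [e1, e2] at h
  exact h

end Pool.Agent.Results.MP_3da4c4_nt.HyperellipticFamilies
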